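import Mathlib
import Pool.Agent.H2.Shell2

open Set MeasureTheory Filter Topology Metric Pool.Agent.H2.Shell
open scoped Pointwise ENNReal

namespace Pool.Agent.Results.MP_6b8987_gt.Shell

noncomputable def packingNumber (k : ℕ) (D X : Set E) : ℝ≥0∞ :=
  ⨆ (l : ℝ) (_ : 0 < l) (φ : Fin k → E → E)
    (_ : ∀ i, IsSymplecticEmbedding (l • D) (φ i) ∧ φ i '' (l • D) ⊆ X)
    (_ : Pairwise fun i j => Disjoint (φ i '' (l • D)) (φ j '' (l • D))),
    k * volume (l • D) / volume X

theorem two {W₁ W₂ K₁ K₂ : Set E} (o₁ : IsOpen W₁) (o₂ : IsOpen W₂) (c₁ : IsClosed K₁)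
    (c₂ : IsClosed K₂) (s₁ : K₁ ⊆ W₁) (s₂ : K₂ ⊆ W₂) (n₁ : W₁.Nonempty) {u₁ u₂ : E → ℝ}
    (h₁ : Continuous u₁) (h₂ : Continuous u₂) (z₁ : ∀ y ∉ K₁, ∃ n : ℤ, u₁ y = n)
    (z₂ : ∀ y ∉ K₂, ∃ n : ℤ, u₂ y = n) {a b : ℝ} (ha : ∀ y ∈ W₂, u₁ y = a)
    (hb : ∀ y ∈ W₁, u₂ y = b) (y : E) : (u₁ y - a) * (u₂ y - b) = 0 := by
  refine princ (o₁.union o₂) (union_subset_union s₁ s₂) (H := fun y => (u₁ y - a) * (u₂ y - b))
    ?_ (fun y hy => ?_) n₁.inl y
  · rintro y (h | h)
    · simp [hb y h]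
    · simp [ha y h]
  · filter_upwards [loc c₁ h₁ z₁ fun h => hy (Or.inl h), loc c₂ h₂ z₂ fun h => hy (Or.inr h)]
      with z e₁ e₂
    rw [e₁, e₂]

theorem nest {u v : E → ℝ} (hu : Continuous u) (hv : Continuous v) (cu : HasCompactSupport u)
    (cv : HasCompactSupport v) (u0 : ∀ y, 0 ≤ u y) (v1 : ∀ y, v y ≤ 1)
    (h : ∀ y, (u y - 1) * (v y - 0) = 0) (e : ∫ y, u y = ∫ y, v y) : u = v := by
  have le : ∀ y, 0 ≤ u y - v y := fun y => by
    rcases mul_eq_zero.1 (h y) with h | h <;> linarith [u0 y, v1 y]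
  have iu := hu.integrable_of_hasCompactSupport (μ := volume) cu
  have iv := hv.integrable_of_hasCompactSupport (μ := volume) cv
  have := (integral_eq_zero_iff_of_nonneg le (iu.sub iv)).1 (by rw [integral_sub iu iv, e, sub_self])
  exact sub_eq_zero.1 (((hu.sub hv).ae_eq_iff_eq volume continuous_const).1 this)

theorem key {k : ℕ} {l : ℝ} (hl : 0 < l) (φ : Fin k → E → E) {D : Set E}
    (hD : D = {x : E | ‖x‖ ∈ Ioo l (11 / 10 * l)})
    (h : ∀ i, IsSymplecticEmbedding D (φ i) ∧ φ i '' D ⊆ ball 0 1)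
    (hd : Pairwise fun i j => Disjoint (φ i '' D) (φ j '' D)) : k * l ^ 4 ≤ 1 := by
  set g : ContDiffBump (0 : E) := ⟨103 / 100 * l, 106 / 100 * l, by linarith, by linarith⟩
  have oD : IsOpen D := hD ▸ isOpen_Ioo.preimage continuous_norm
  have cD : IsPreconnected D := hD ▸ radial isPreconnected_Ioo fun t ht => hl.trans ht.1
  have x0 : (105 / 100 * l) • e 0 ∈ D := by
    have : ‖(105 / 100 * l) • e 0‖ = 105 / 100 * l := by simp [norm_smul, e, abs_of_pos hl]
    rw [hD, mem_setOf_eq, this]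
    constructor <;> linarith
  have gx : 0 < g ((105 / 100 * l) • e 0) := g.pos_of_mem_ball (by
    have : ‖(105 / 100 * l) • e 0‖ = 105 / 100 * l := by simp [norm_smul, e, abs_of_pos hl]
    rw [mem_ball_zero_iff, this]
    change _ < 106 / 100 * l
    linarith)
  have hK : IsCompact (closedBall (0 : E) g.rOut \ ball 0 g.rIn) :=
    (isCompact_closedBall _ _).diff isOpen_ball
  have KD : closedBall (0 : E) g.rOut \ ball 0 g.rIn ⊆ D := fun x hx => by
    have h1 : ‖x‖ ≤ 106 / 100 * l := mem_closedBall_zero_iff.1 hx.1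
    have h2 : 103 / 100 * l ≤ ‖x‖ := not_lt.1 (mt mem_ball_zero_iff.2 hx.2)
    rw [hD]
    constructor <;> linarith
  have H := fun i => hull oD cD ⟨_, x0⟩ hK KD (h i).1 (h i).2 g.contDiff g.hasCompactSupport
    (fun x => ⟨g.nonneg, g.le_one⟩) (fun x hx => by
      by_cases h : x ∈ ball 0 g.rIn
      · exact Or.inr (g.one_of_mem_closedBall (ball_subset_closedBall h))
      · exact Or.inl (g.zero_of_le_dist (not_le.1 fun h' => hx ⟨h', h⟩).le)) g.integral_pos
  choose u uc us uo ub uz ug ui using fun i => (H i).2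
  have cK := fun i => (hK.image_of_continuousOn ((h i).1.smooth.continuousOn.mono KD)).isClosed
  have cst : ∀ i j, i ≠ j → ∃ a : ℝ, (a = 0 ∨ a = 1) ∧ ∀ y ∈ φ j '' D, u i y = a := by
    intro i j hij
    have z : ∀ y ∈ φ j '' D, ∃ n : ℤ, u i y = n := fun y hy =>
      uz i y fun h' => disjoint_left.1 (hd hij) (image_mono KD h') hy
    refine ⟨_, ?_, fun y hy => intconst (cD.image _ (h j).1.smooth.continuousOn)
      (uc i).continuousOn z hy (mem_image_of_mem _ x0)⟩
    obtain ⟨n, hn⟩ := z _ (mem_image_of_mem _ x0)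
    have b := ub i (φ j ((105 / 100 * l) • e 0))
    rw [hn] at b ⊢
    have b1 : 0 ≤ n := by exact_mod_cast b.1
    have b2 : n ≤ 1 := by exact_mod_cast b.2
    exact_mod_cast (by omega : n = 0 ∨ n = 1)
  have dis : ∀ i j, i ≠ j → ∀ y, u i y * u j y = 0 := by
    intro i j hij y
    obtain ⟨a, ha, pa⟩ := cst i j hij
    obtain ⟨b, hb, pb⟩ := cst j i hij.symm
    have t := two (H i).1 (H j).1 (cK i) (cK j) (image_mono KD) (image_mono KD)
      ⟨_, mem_image_of_mem _ x0⟩ (uc i) (uc j) (uz i) (uz j) pa pb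
    rcases ha with rfl | rfl <;> rcases hb with rfl | rfl
    · simpa using t y
    · have := nest (uc j) (uc i) (us j) (us i) (fun y => (ub j y).1) (fun y => (ub i y).2)
        (fun y => (mul_comm _ _).trans (t y)) ((ui j).trans (ui i).symm)
      have e1 := pa _ (mem_image_of_mem _ x0)
      rw [← this, ug j _ x0] at e1
      exact absurd e1 gx.ne'
    · have := nest (uc i) (uc j) (us i) (us j) (fun y => (ub i y).1) (fun y => (ub j y).2) t
        ((ui i).trans (ui j).symm)
      have e1 := pb _ (mem_image_of_mem _ x0)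
      rw [← this, ug i _ x0] at e1
      exact absurd e1 gx.ne'
    · have := t (e 0)
      rw [uo i _ (by simp [e]), uo j _ (by simp [e])] at this
      norm_num at this
  have le : ∀ y, ∑ i, u i y ≤ (ball (0 : E) 1).indicator 1 y := by
    intro y
    by_cases hy : y ∈ ball (0 : E) 1
    · rw [indicator_of_mem hy]
      by_cases h0 : ∃ i, u i y ≠ 0
      · obtain ⟨i, hi⟩ := h0
        rw [Finset.sum_eq_single i (fun j _ hj => (mul_eq_zero.1 (dis j i hj y)).resolve_right hi)
          (by simp)]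
        exact (ub i y).2
      · simp [fun i => not_not.1 (not_exists.1 h0 i)]
    · simp [indicator_of_notMem hy, fun i => uo i y hy]
  have iu := fun i => (uc i).integrable_of_hasCompactSupport (μ := volume) (us i)
  have m := integral_mono (g := (ball (0 : E) 1).indicator 1)
    (integrable_finsetSum _ fun i _ => iu i)
    ((integrable_indicator_iff measurableSet_ball).2 (integrableOn_const measure_ball_lt_top.ne)) le
  rw [integral_finsetSum _ fun i _ => iu i, integral_indicator_one measurableSet_ball] at m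
  simp only [ui, Finset.sum_const, Finset.card_univ, Fintype.card_fin, nsmul_eq_mul] at m
  have m2 := g.measure_closedBall_le_integral volume
  rw [Measure.addHaar_real_closedBall _ _ g.rIn_pos.le, finrank_euclideanSpace_fin] at m2
  have V : 0 < volume.real (ball (0 : E) 1) :=
    ENNReal.toReal_pos (measure_ball_pos _ _ one_pos).ne' measure_ball_lt_top.ne
  have m3 : l ^ 4 ≤ g.rIn ^ 4 := pow_le_pow_left₀ hl.le (by change _ ≤ 103 / 100 * l; linarith) 4
  have k0 : (0 : ℝ) ≤ k := Nat.cast_nonneg k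
  refine le_of_mul_le_mul_right ?_ V
  nlinarith [mul_le_mul_of_nonneg_left m2 k0, mul_le_mul_of_nonneg_left
    (mul_le_mul_of_nonneg_right m3 V.le) k0]

theorem result : ∃ D X : Set E, IsOpen D ∧ IsConnected D ∧ Bornology.IsBounded D ∧
    IsOpen X ∧ IsConnected X ∧ volume X < ⊤ ∧ (∀ k, packingNumber k D X ≤ 1 / 2) ∧
    liminf (fun k => packingNumber k D X) atTop < 1 := by
  have b : ∀ k, packingNumber k {x : E | ‖x‖ ∈ Ioo 1 (11 / 10)} (ball 0 1) ≤ 1 / 2 := by
    refine fun k => iSup₂_le fun l hl => iSup₂_le fun φ h => iSup_le fun hd => ?_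
    have hD : l • {x : E | ‖x‖ ∈ Ioo 1 (11 / 10)} = {x : E | ‖x‖ ∈ Ioo l (11 / 10 * l)} := by
      ext x
      rw [mem_smul_set_iff_inv_smul_mem₀ hl.ne']
      simp only [mem_setOf_eq, norm_smul, norm_inv, Real.norm_eq_abs, abs_of_pos hl, mem_Ioo,
        ← div_eq_inv_mul, lt_div_iff₀ hl, div_lt_iff₀ hl, one_mul]
    have k1 := key hl φ hD h hd
    have v : volume (l • {x : E | ‖x‖ ∈ Ioo 1 (11 / 10)}) ≤
        ENNReal.ofReal (l ^ 4 / 2) * volume (ball (0 : E) 1) := by
      have : l • {x : E | ‖x‖ ∈ Ioo 1 (11 / 10)} = ball 0 (11 / 10 * l) \ closedBall 0 l := by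
        rw [hD]; ext x; simp [and_comm]
      rw [this, measure_diff (closedBall_subset_ball (by linarith))
        measurableSet_closedBall.nullMeasurableSet measure_closedBall_lt_top.ne,
        Measure.addHaar_ball _ _ (by linarith), Measure.addHaar_closedBall _ _ hl.le,
        finrank_euclideanSpace_fin, ← ENNReal.sub_mul fun _ _ => measure_ball_lt_top.ne,
        ← ENNReal.ofReal_sub _ (by positivity)]
      exact mul_le_mul_left (ENNReal.ofReal_le_ofReal (by nlinarith [pow_pos hl 4])) _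
    refine ENNReal.div_le_of_le_mul ((mul_le_mul_right v _).trans ?_)
    rw [← mul_assoc, ← ENNReal.ofReal_natCast, ← ENNReal.ofReal_mul (Nat.cast_nonneg k)]
    refine mul_le_mul_left ((ENNReal.ofReal_le_ofReal (q := 1 / 2) (by linarith)).trans_eq ?_) _
    rw [ENNReal.ofReal_div_of_pos two_pos]
    simp
  refine ⟨_, ball 0 1, isOpen_Ioo.preimage continuous_norm, ⟨⟨(21 / 20 : ℝ) • e 0, ?_⟩,
    radial isPreconnected_Ioo fun t ht => one_pos.trans ht.1⟩,
    (isBounded_ball (x := 0) (r := 11 / 10)).subset fun x hx => mem_ball_zero_iff.2 hx.2,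
    isOpen_ball, (convex_ball 0 1).isConnected (nonempty_ball.2 one_pos), measure_ball_lt_top, b,
    (liminf_le_of_frequently_le' (Frequently.of_forall b)).trans_lt (by simp)⟩
  simp [norm_smul, e]
  norm_num

end Pool.Agent.Results.MP_6b8987_gt.Shell
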